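import Mathlib

set_option autoImplicit false

open Polynomial LinearAlgebra.Projectivization

namespace Pool.Agent.Results.MP_7b039f_nt.FrobeniusIncidence

/-- Height of the point of projective space over `F(t)` with homogeneous coordinates `v`:
the least `d` such that some nonzero multiple of `v` has polynomial coordinates of
degree at most `d` (attained by the coprime representative; it is the degree of the
pull back of `O(1)` under the associated morphism from the projective line). -/
noncomputable def height (F : Type) [Field F] {ι : Type} (v : ι → RatFunc F) : ℕ :=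
  sInf {d : ℕ | ∃ (a : RatFunc F) (c : ι → F[X]), a ≠ 0 ∧
    (∀ i, algebraMap F[X] (RatFunc F) (c i) = a * v i) ∧ ∀ i, (c i).natDegree ≤ d}

/-- Exponents of the monomials of bidegree `(a, b)` in `x_0..x_n; y_0..y_n`. -/
def BiExp (n a b : ℕ) : Type :=
  {m : (Fin (n + 1) → ℕ) × (Fin (n + 1) → ℕ) // ∑ i, m.1 i = a ∧ ∑ i, m.2 i = b}

/-- All monomials of bidegree `(a, b)`: homogeneous coordinates of the Segre-Veronese
embedding of `P^n x P^n` attached to `O(a, b)`. -/
noncomputable def segreVeronese {K : Type} [Field K] (n a b : ℕ) (x y : Fin (n + 1) → K) :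
    BiExp n a b → K :=
  fun m => (∏ i, x i ^ m.1.1 i) * ∏ i, y i ^ m.1.2 i

/-- Polynomials in `x_0..x_n; y_0..y_n` over a field. -/
abbrev BiPoly (K : Type) [Field K] (n : ℕ) : Type :=
  MvPolynomial (Fin (n + 1) ⊕ Fin (n + 1)) K

/-- Value of a polynomial at the pair of coordinate vectors `x, y`. -/
noncomputable def ev {K : Type} [Field K] {n : ℕ} (f : BiPoly K n) (x y : Fin (n + 1) → K) : K :=
  MvPolynomial.eval (Sum.elim x y) f

/-- Value of a polynomial over `K` at coordinate vectors with entries in the algebraic closure. -/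
noncomputable def evBar {K : Type} [Field K] {n : ℕ} (f : BiPoly K n)
    (x y : Fin (n + 1) → AlgebraicClosure K) : AlgebraicClosure K :=
  MvPolynomial.aeval (Sum.elim x y) f

/-- Points of the projective space `P^n(K)`. -/
abbrev ProjPt (K : Type) [Field K] (n : ℕ) : Type := ℙ K (Fin (n + 1) → K)

/-- The bihomogeneous equation `∑ x_i y_i ^ p = 0` of `V`. -/
def OnV {L : Type} [Field L] (n p : ℕ) (x y : Fin (n + 1) → L) : Prop :=
  ∑ i, x i * y i ^ p = 0

/-- height upper bound from any polynomial representative -/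
lemma height_le {F : Type} [Field F] {ι : Type} (v : ι → RatFunc F) (a : RatFunc F)
    (c : ι → F[X]) (d : ℕ) (ha : a ≠ 0)
    (h : ∀ i, algebraMap F[X] (RatFunc F) (c i) = a * v i) (hd : ∀ i, (c i).natDegree ≤ d) :
    height F v ≤ d :=
  Nat.sInf_le ⟨a, c, ha, h, hd⟩

/-- Any nonzero vector over `F(t)` has a primitive polynomial representative. -/
lemma exists_primitive {F : Type} [Field F] {m : ℕ} (v : Fin m → RatFunc F) (hv : v ≠ 0) :
    ∃ (a : RatFunc F) (c : Fin m → F[X]), a ≠ 0 ∧
      (∀ i, algebraMap F[X] (RatFunc F) (c i) = a * v i) ∧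
      (∀ d : F[X], (∀ i, d ∣ c i) → IsUnit d) := by
  classical
  -- existence of some polynomial representative
  obtain ⟨b, hb⟩ := IsLocalization.exist_integer_multiples_of_finite
    (nonZeroDivisors F[X]) v
  have hb0 : algebraMap F[X] (RatFunc F) (b : F[X]) ≠ 0 := by
    have := nonZeroDivisors.ne_zero b.2
    simp [this]
  have hex : ∃ d : ℕ, ∃ (a : RatFunc F) (c : Fin m → F[X]), a ≠ 0 ∧
      (∀ i, algebraMap F[X] (RatFunc F) (c i) = a * v i) ∧ ∑ i, (c i).natDegree = d := by
    choose c hc using hb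
    refine ⟨_, algebraMap F[X] (RatFunc F) (b : F[X]), c, hb0, ?_, rfl⟩
    intro i
    have := hc i
    rw [this, Algebra.smul_def]
  obtain ⟨a, c, ha, hc, hd⟩ := Nat.find_spec hex
  refine ⟨a, c, ha, hc, ?_⟩
  intro e he
  by_contra hu
  have he0 : e ≠ 0 := by
    rintro rfl
    apply hv
    funext i
    have h0 : c i = 0 := zero_dvd_iff.mp (he i)
    have := hc i
    rw [h0, map_zero] at this
    exact ((mul_eq_zero.mp this.symm).resolve_left ha)
  choose c' hc' using he
  have hdeg : 0 < e.natDegree := by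
    rcases Nat.eq_zero_or_pos e.natDegree with h | h
    · exfalso
      apply hu
      rw [Polynomial.eq_C_of_natDegree_eq_zero h] at he0 ⊢
      have : e.coeff 0 ≠ 0 := by
        intro h0
        apply he0
        rw [h0, map_zero]
      exact (Polynomial.isUnit_C).mpr (isUnit_iff_ne_zero.mpr this)
    · exact h
  have hemap : algebraMap F[X] (RatFunc F) e ≠ 0 := by
    simpa using he0
  have hlt : ∑ i, (c' i).natDegree < Nat.find hex := by
    rw [← hd]
    apply Finset.sum_lt_sum
    · intro i _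
      rw [hc' i]
      by_cases h0 : c' i = 0
      · simp [h0]
      · rw [Polynomial.natDegree_mul he0 h0]
        omega
    · obtain ⟨i, hi⟩ : ∃ i, c i ≠ 0 := by
        by_contra hcon
        push Not at hcon
        apply hv
        funext i
        have := hc i
        rw [hcon i, map_zero] at this
        exact ((mul_eq_zero.mp this.symm).resolve_left ha)
      refine ⟨i, Finset.mem_univ _, ?_⟩
      have h0 : c' i ≠ 0 := by
        intro h0
        apply hi
        rw [hc' i, h0, mul_zero]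
      rw [hc' i, Polynomial.natDegree_mul he0 h0]
      omega
  refine Nat.find_min hex hlt ⟨a / algebraMap F[X] (RatFunc F) e, c', div_ne_zero ha hemap, ?_, rfl⟩
  intro i
  have := hc i
  rw [hc' i, map_mul] at this
  field_simp
  rw [mul_comm]
  linear_combination this

/-- any polynomial vector proportional to a primitive one is a polynomial multiple -/
lemma multiple_of_primitive {F : Type} [Field F] {m : ℕ} (c z : Fin m → F[X])
    (hc : ∀ d : F[X], (∀ i, d ∣ c i) → IsUnit d) (l : RatFunc F)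
    (h : ∀ i, algebraMap F[X] (RatFunc F) (z i) = l * algebraMap F[X] (RatFunc F) (c i)) :
    ∃ g : F[X], ∀ i, z i = g * c i := by
  have hden : (l.denom) ≠ 0 := RatFunc.denom_ne_zero l
  have hl : l * algebraMap F[X] (RatFunc F) l.denom = algebraMap F[X] (RatFunc F) l.num := by
    have := RatFunc.num_div_denom l
    have h2 : algebraMap F[X] (RatFunc F) l.denom ≠ 0 := by simpa using hden
    field_simp at this
    linear_combination -this
  have hcop : IsCoprime l.num l.denom := RatFunc.isCoprime_num_denom l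
  have hrel : ∀ i, z i * l.denom = l.num * c i := by
    intro i
    have hinj : Function.Injective (algebraMap F[X] (RatFunc F)) :=
      IsFractionRing.injective F[X] (RatFunc F)
    apply hinj
    rw [map_mul, map_mul, h i, ← hl]
    ring
  have hdiv : ∀ i, l.denom ∣ c i := by
    intro i
    have : l.denom ∣ l.num * c i := ⟨z i, by rw [← hrel i, mul_comm]⟩
    exact (hcop.symm.dvd_of_dvd_mul_left this)
  have hu := hc _ hdiv
  obtain ⟨u, hu'⟩ := hu
  refine ⟨l.num * (↑u⁻¹ : F[X]), ?_⟩
  intro i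
  have h1 := hrel i
  have : z i = z i * l.denom * (↑u⁻¹ : F[X]) := by
    rw [← hu', mul_assoc, Units.mul_inv, mul_one]
  rw [this, h1]
  ring

/-- maximal degree of the entries of a polynomial vector -/
def maxDeg {F : Type} [Field F] {m : ℕ} (z : Fin m → F[X]) : ℕ :=
  Finset.univ.sup (fun i => (z i).natDegree)

lemma polyLT_finite (F : Type) [Field F] [Finite F] (m : ℕ) :
    ((degreeLT F m : Submodule F F[X]) : Set F[X]).Finite := by
  have : Finite (degreeLT F m) := Finite.of_equiv _ (degreeLTEquiv F m).toEquiv.symm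
  exact Set.toFinite _

/-- polynomials of degree less than `m` -/
noncomputable def polyLT (F : Type) [Field F] [Finite F] (m : ℕ) : Finset F[X] :=
  (polyLT_finite F m).toFinset

lemma mem_polyLT {F : Type} [Field F] [Finite F] {m : ℕ} {f : F[X]} :
    f ∈ polyLT F m ↔ f.degree < m := by
  simp [polyLT, mem_degreeLT]

lemma card_polyLT (F : Type) [Field F] [Finite F] (m : ℕ) :
    (polyLT F m).card = Nat.card F ^ m := by
  have h1 : (polyLT F m).card = Nat.card (degreeLT F m) := by
    rw [polyLT, ← Set.ncard_eq_toFinset_card _ (polyLT_finite F m)]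
    rfl
  rw [h1, Nat.card_congr (degreeLTEquiv F m).toEquiv, Nat.card_fun]
  simp

lemma mem_polyLT_succ {F : Type} [Field F] [Finite F] {m : ℕ} {f : F[X]} :
    f ∈ polyLT F (m + 1) ↔ f.natDegree ≤ m := by
  rw [mem_polyLT]
  by_cases hf : f = 0
  · subst hf
    simp only [degree_zero, natDegree_zero, zero_le, iff_true]
    exact WithBot.bot_lt_coe _
  · rw [Polynomial.degree_eq_natDegree hf, Nat.cast_lt]
    exact Nat.lt_succ_iff

/-- The number of polynomial vectors of exact height `m` avoiding a hypersurface. -/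
lemma card_shell {F : Type} [Field F] [Finite F] {n : ℕ} (hn : 2 ≤ n)
    (G : MvPolynomial (Fin n) (RatFunc F)) (hG : G ≠ 0) (m : ℕ)
    (hm : G.totalDegree * Nat.card F ^ (n - 1) ≤ Nat.card F ^ m) :
    ∃ E : Finset (Fin n → F[X]), Nat.card F ^ (n * m) ≤ E.card ∧
      ∀ z ∈ E, maxDeg z = m ∧ z ≠ 0 ∧
        MvPolynomial.eval (fun i => algebraMap F[X] (RatFunc F) (z i)) G ≠ 0 := by
  classical
  set q := Nat.card F with hq
  have hq2 : 2 ≤ q := Finite.one_lt_card
  set A1 := Fintype.piFinset (fun _ : Fin n => polyLT F (m + 1)) with hA1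
  set A0 := Fintype.piFinset (fun _ : Fin n => polyLT F m) with hA0
  set bad := A1.filter (fun z => MvPolynomial.eval
    (fun i => algebraMap F[X] (RatFunc F) (z i)) G = 0) with hbad
  have hinj : Function.Injective (algebraMap F[X] (RatFunc F)) :=
    IsFractionRing.injective F[X] (RatFunc F)
  have cA1 : A1.card = q ^ ((m + 1) * n) := by
    rw [hA1, Fintype.card_piFinset]
    simp [card_polyLT, pow_mul, hq]
  have cA0 : A0.card = q ^ (m * n) := by
    rw [hA0, Fintype.card_piFinset]
    simp [card_polyLT, pow_mul, hq]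
  -- Schwartz-Zippel
  have cbad : bad.card ≤ G.totalDegree * q ^ ((m + 1) * (n - 1)) := by
    set S : Finset (RatFunc F) := (polyLT F (m + 1)).image (algebraMap F[X] (RatFunc F)) with hS
    have cS : S.card = q ^ (m + 1) := by
      rw [hS, Finset.card_image_of_injective _ hinj, card_polyLT]
    have hSZ := MvPolynomial.schwartz_zippel_totalDegree hG S
    set B := {f ∈ Fintype.piFinset fun _ : Fin n => S | MvPolynomial.eval f G = 0} with hB
    have hle : bad.card ≤ B.card := by
      apply Finset.card_le_card_of_injOn (fun z i => algebraMap F[X] (RatFunc F) (z i))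
      · intro z hz
        simp only [hbad, Finset.coe_filter, Set.mem_ofPred_eq, hA1, Fintype.mem_piFinset] at hz
        simp only [hB, Finset.coe_filter, Set.mem_ofPred_eq, Fintype.mem_piFinset]
        exact ⟨fun i => Finset.mem_image_of_mem _ (hz.1 i), hz.2⟩
      · intro z _ z' _ h
        funext i
        exact hinj (congrFun h i)
    have hSpos : 0 < S.card := by
      rw [cS]; positivity
    have hcard : (B.card : ℚ≥0) ≤ G.totalDegree * (S.card : ℚ≥0) ^ (n - 1) := by
      have h1 : (S.card : ℚ≥0) ^ n = (S.card : ℚ≥0) ^ (n - 1) * S.card := by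
        rw [← pow_succ]; congr 1; omega
      have hpos : (0 : ℚ≥0) < S.card := by exact_mod_cast hSpos
      rw [div_le_div_iff₀ (by positivity) hpos, h1] at hSZ
      have := le_of_mul_le_mul_right (a := (S.card : ℚ≥0)) (b := (B.card : ℚ≥0))
        (c := G.totalDegree * (S.card : ℚ≥0) ^ (n - 1)) (by rw [mul_assoc]; exact hSZ) hpos
      exact this
    have hcard' : B.card ≤ G.totalDegree * S.card ^ (n - 1) := by exact_mod_cast hcard
    rw [cS, ← pow_mul] at hcard'
    exact hle.trans hcard'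
  refine ⟨(A1 \ A0) \ bad, ?_, ?_⟩
  · have h1 : A1.card ≤ ((A1 \ A0) \ bad).card + A0.card + bad.card := by
      have h2 := Finset.le_card_sdiff A0 A1
      have h3 := Finset.le_card_sdiff bad (A1 \ A0)
      omega
    have e1 : q ^ ((m + 1) * n) = q ^ (n * m) * q ^ n := by
      rw [← pow_add]; congr 1; ring
    have e2 : q ^ ((m + 1) * (n - 1)) = q ^ (n - 1) * q ^ (m * (n - 1)) := by
      rw [← pow_add]; congr 1; ring
    have e3 : q ^ m * q ^ (m * (n - 1)) = q ^ (n * m) := by
      rw [← pow_add]; congr 1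
      obtain ⟨k, rfl⟩ : ∃ k, n = k + 1 := ⟨n - 1, by omega⟩
      simp; ring
    have e4 : bad.card ≤ q ^ (n * m) := by
      refine cbad.trans ?_
      rw [e2, ← e3, ← mul_assoc]
      exact Nat.mul_le_mul_right _ hm
    have e5 : 4 ≤ q ^ n := by
      calc 4 = 2 ^ 2 := by norm_num
        _ ≤ q ^ 2 := Nat.pow_le_pow_left hq2 2
        _ ≤ q ^ n := Nat.pow_le_pow_right (by omega) hn
    have e6 : q ^ (n * m) * 4 ≤ q ^ (n * m) * q ^ n := Nat.mul_le_mul_left _ e5
    have e7 : q ^ (m * n) = q ^ (n * m) := by rw [mul_comm]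
    rw [cA1, cA0, e1, e7] at h1
    omega
  · intro z hz
    simp only [Finset.mem_sdiff, hbad, Finset.mem_filter, not_and, hA1, hA0,
      Fintype.mem_piFinset, not_forall] at hz
    obtain ⟨⟨h1, j, hj⟩, h3⟩ := hz
    have hdj : m ≤ (z j).natDegree ∧ z j ≠ 0 := by
      rw [mem_polyLT] at hj
      have hne : z j ≠ 0 := by
        intro h0
        apply hj
        rw [h0, Polynomial.degree_zero]
        exact WithBot.bot_lt_coe m
      refine ⟨?_, hne⟩
      rw [Polynomial.degree_eq_natDegree hne] at hj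
      push Not at hj
      exact_mod_cast hj
    refine ⟨?_, ?_, h3 h1⟩
    · apply le_antisymm
      · apply Finset.sup_le
        intro i _
        exact mem_polyLT_succ.mp (h1 i)
      · exact hdj.1.trans (Finset.le_sup (f := fun i => (z i).natDegree) (Finset.mem_univ j))
    · intro h0
      exact hdj.2 (by rw [h0]; rfl)

/-- divergence of the sum over polynomial vectors avoiding a hypersurface -/
lemma not_summable_vectors {F : Type} [Field F] [Finite F] {n : ℕ} (hn : 2 ≤ n)
    (G : MvPolynomial (Fin n) (RatFunc F)) (hG : G ≠ 0) :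
    ¬ Summable (fun z : {z : Fin n → F[X] // z ≠ 0 ∧
        MvPolynomial.eval (fun i => algebraMap F[X] (RatFunc F) (z i)) G ≠ 0} =>
      (((Nat.card F : ℝ) ^ (n * maxDeg z.1))⁻¹)) := by
  classical
  intro hs
  have hq2 : 2 ≤ Nat.card F := Finite.one_lt_card
  rw [summable_iff_vanishing_norm] at hs
  obtain ⟨s, hs⟩ := hs 1 one_pos
  obtain ⟨m, hm1, hm2⟩ : ∃ m, G.totalDegree * Nat.card F ^ (n - 1) ≤ Nat.card F ^ m ∧
      ∀ z ∈ s, maxDeg z.1 < m := by
    refine ⟨G.totalDegree * Nat.card F ^ (n - 1) + (s.sup (fun z => maxDeg z.1) + 1), ?_, ?_⟩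
    · exact (Nat.lt_pow_self hq2).le.trans (Nat.pow_le_pow_right (by omega) (by omega))
    · intro z hz
      have := Finset.le_sup (f := fun z : {z : Fin n → F[X] // z ≠ 0 ∧
        MvPolynomial.eval (fun i => algebraMap F[X] (RatFunc F) (z i)) G ≠ 0} => maxDeg z.1) hz
      omega
  obtain ⟨E, hE, hEm⟩ := card_shell hn G hG m hm1
  set t := Finset.subtype (fun z => z ≠ 0 ∧
        MvPolynomial.eval (fun i => algebraMap F[X] (RatFunc F) (z i)) G ≠ 0) E with ht
  have hdisj : Disjoint t s := by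
    rw [Finset.disjoint_left]
    intro z hz hzs
    rw [ht, Finset.mem_subtype] at hz
    have h1 := (hEm _ hz).1
    have h2 := hm2 z hzs
    omega
  have h := hs t hdisj
  have hsum : ∑ z ∈ t, (((Nat.card F : ℝ) ^ (n * maxDeg z.1))⁻¹)
      = E.card * ((Nat.card F : ℝ) ^ (n * m))⁻¹ := by
    have h1 : ∑ z ∈ t, (((Nat.card F : ℝ) ^ (n * maxDeg z.1))⁻¹)
        = ∑ z ∈ t, (((Nat.card F : ℝ) ^ (n * m))⁻¹) := by
      apply Finset.sum_congr rfl
      intro z hz
      rw [ht, Finset.mem_subtype] at hz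
      rw [(hEm _ hz).1]
    rw [h1, Finset.sum_const, nsmul_eq_mul]
    congr 2
    rw [ht, Finset.card_subtype, Finset.filter_true_of_mem]
    intro z hz
    exact (hEm z hz).2
  rw [hsum] at h
  have hpos : (0 : ℝ) < (Nat.card F : ℝ) ^ (n * m) := by
    have : (0 : ℝ) < Nat.card F := by exact_mod_cast (by omega : 0 < Nat.card F)
    positivity
  have h2 : (1 : ℝ) ≤ E.card * ((Nat.card F : ℝ) ^ (n * m))⁻¹ := by
    rw [← div_eq_mul_inv, le_div_iff₀ hpos, one_mul]
    exact_mod_cast hE
  rw [Real.norm_of_nonneg (by positivity)] at h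
  linarith

/-- `∑ q^{-n deg g}` over nonzero polynomials converges for `n ≥ 2` -/
lemma summable_scalars (F : Type) [Field F] [Finite F] {n : ℕ} (hn : 2 ≤ n) :
    Summable (fun g : {g : F[X] // g ≠ 0} => (((Nat.card F : ℝ) ^ (n * g.1.natDegree))⁻¹)) := by
  classical
  have hq2 : 2 ≤ Nat.card F := Finite.one_lt_card
  set q : ℝ := (Nat.card F : ℝ) with hq
  have hq2' : (2 : ℝ) ≤ q := by rw [hq]; exact_mod_cast hq2
  have hq0 : (0 : ℝ) < q := by linarith
  apply summable_of_sum_le (c := 2 * q)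
  · intro g; positivity
  · intro u
    set N := u.sup (fun g => g.1.natDegree) with hN
    have hmaps : ∀ g ∈ u, g.1.natDegree ∈ Finset.range (N + 1) := by
      intro g hg
      rw [Finset.mem_range]
      have := Finset.le_sup (f := fun g : {g : F[X] // g ≠ 0} => g.1.natDegree) hg
      omega
    rw [← Finset.sum_fiberwise_of_maps_to hmaps]
    have hfib : ∀ d ∈ Finset.range (N + 1),
        ∑ g ∈ u with g.1.natDegree = d, ((q ^ (n * g.1.natDegree))⁻¹) ≤ q * (1 / 2) ^ d := by
      intro d _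
      have h1 : ∑ g ∈ u with g.1.natDegree = d, ((q ^ (n * g.1.natDegree))⁻¹)
          = ({g ∈ u | g.1.natDegree = d}.card : ℝ) * (q ^ (n * d))⁻¹ := by
        rw [← nsmul_eq_mul, ← Finset.sum_const]
        apply Finset.sum_congr rfl
        intro g hg
        rw [(Finset.mem_filter.mp hg).2]
      have h2 : {g ∈ u | g.1.natDegree = d}.card ≤ Nat.card F ^ (d + 1) := by
        rw [← card_polyLT]
        apply Finset.card_le_card_of_injOn (fun g => g.1)
        · intro g hg
          have := (Finset.mem_filter.mp hg).2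
          simp only [Finset.mem_coe]
          rw [mem_polyLT_succ, this]
        · intro g _ g' _ h
          exact Subtype.ext h
      have h3 : ({g ∈ u | g.1.natDegree = d}.card : ℝ) ≤ q ^ (d + 1) := by
        rw [hq]; exact_mod_cast h2
      rw [h1]
      calc ({g ∈ u | g.1.natDegree = d}.card : ℝ) * (q ^ (n * d))⁻¹
          ≤ q ^ (d + 1) * (q ^ (n * d))⁻¹ := by
            apply mul_le_mul_of_nonneg_right h3; positivity
        _ ≤ q ^ (d + 1) * (q ^ (2 * d))⁻¹ := by
            apply mul_le_mul_of_nonneg_left _ (by positivity)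
            apply inv_anti₀ (by positivity)
            apply pow_le_pow_right₀ (by linarith)
            exact Nat.mul_le_mul_right _ hn
        _ = q * (1 / q) ^ d := by
            have : q ^ (2 * d) = q ^ d * q ^ d := by rw [two_mul, pow_add]
            rw [this, pow_succ, one_div, inv_pow]
            field_simp
        _ ≤ q * (1 / 2) ^ d := by
            apply mul_le_mul_of_nonneg_left _ hq0.le
            apply pow_le_pow_left₀ (by positivity)
            exact one_div_le_one_div_of_le (by norm_num) hq2'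
    refine (Finset.sum_le_sum hfib).trans ?_
    rw [← Finset.mul_sum]
    have hgeo : ∑ d ∈ Finset.range (N + 1), ((1 : ℝ) / 2) ^ d ≤ 2 := by
      have := (summable_geometric_of_lt_one (by norm_num : (0:ℝ) ≤ 1/2) (by norm_num)).sum_le_tsum
        (Finset.range (N + 1)) (fun i _ => by positivity)
      rw [tsum_geometric_of_lt_one (by norm_num) (by norm_num)] at this
      norm_num at this ⊢
      exact this
    nlinarith

/-- parametrisation of the hyperplane `∑ a_i y_i = 0` -/
def hyp {R : Type} [CommRing R] {n : ℕ} (k : Fin (n + 1)) (a : Fin (n + 1) → R)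
    (z : Fin n → R) : Fin (n + 1) → R :=
  k.insertNth (-(∑ j, a (k.succAbove j) * z j)) (fun j => a k * z j)

lemma hyp_same {R : Type} [CommRing R] {n : ℕ} (k : Fin (n + 1)) (a : Fin (n + 1) → R)
    (z : Fin n → R) : hyp k a z k = -(∑ j, a (k.succAbove j) * z j) := by
  simp [hyp]

lemma hyp_succAbove {R : Type} [CommRing R] {n : ℕ} (k : Fin (n + 1)) (a : Fin (n + 1) → R)
    (z : Fin n → R) (j : Fin n) : hyp k a z (k.succAbove j) = a k * z j := by
  simp [hyp]

lemma sum_hyp {R : Type} [CommRing R] {n : ℕ} (k : Fin (n + 1)) (a : Fin (n + 1) → R)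
    (z : Fin n → R) : ∑ i, a i * hyp k a z i = 0 := by
  rw [Fin.sum_univ_succAbove _ k]
  simp only [hyp_same, hyp_succAbove]
  rw [mul_neg, Finset.mul_sum, neg_add_eq_zero]
  apply Finset.sum_congr rfl
  intro j _
  ring

lemma map_hyp {R R' : Type} [CommRing R] [CommRing R'] (φ : R →+* R') {n : ℕ}
    (k : Fin (n + 1)) (a : Fin (n + 1) → R) (z : Fin n → R) (i : Fin (n + 1)) :
    φ (hyp k a z i) = hyp k (fun i => φ (a i)) (fun j => φ (z j)) i := by
  rcases Fin.eq_self_or_eq_succAbove k i with rfl | ⟨j, rfl⟩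
  · simp [hyp_same]
  · simp [hyp_succAbove]

/-- the parametrisation as a linear map -/
def hypLin {K : Type} [Field K] {n : ℕ} (k : Fin (n + 1)) (a : Fin (n + 1) → K) :
    (Fin n → K) →ₗ[K] (Fin (n + 1) → K) where
  toFun := hyp k a
  map_add' := by
    intro x y
    funext i
    rcases Fin.eq_self_or_eq_succAbove k i with rfl | ⟨j, rfl⟩
    · simp [hyp_same, mul_add, Finset.sum_add_distrib]
      ring
    · simp [hyp_succAbove, mul_add]
  map_smul' := by
    intro c x
    funext i
    rcases Fin.eq_self_or_eq_succAbove k i with rfl | ⟨j, rfl⟩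
    · simp only [hyp_same, Pi.smul_apply, smul_eq_mul, RingHom.id_apply, mul_neg, Finset.mul_sum]
      congr 1
      apply Finset.sum_congr rfl
      intro j _
      ring
    · simp only [hyp_succAbove, Pi.smul_apply, smul_eq_mul, RingHom.id_apply]
      ring

lemma hypLin_injective {K : Type} [Field K] {n : ℕ} (k : Fin (n + 1)) (a : Fin (n + 1) → K)
    (hk : a k ≠ 0) : Function.Injective (hypLin k a) := by
  intro x y h
  funext j
  have := congrFun h (k.succAbove j)
  simp only [hypLin, LinearMap.coe_mk, AddHom.coe_mk, hyp_succAbove] at this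
  exact mul_left_cancel₀ hk this

/-- A bihomogeneous polynomial in `x_0..x_n; y_0..y_n`. -/
def IsBihomogeneous {K : Type} [Field K] {n : ℕ} (f : BiPoly K n) : Prop :=
  ∃ a b : ℕ, ∀ m ∈ f.support, ∑ i, m (Sum.inl i) = a ∧ ∑ i, m (Sum.inr i) = b

lemma bihom_eval {K : Type} [Field K] {n : ℕ}
    {f : MvPolynomial (Fin (n + 1) ⊕ Fin (n + 1)) K} {α β : ℕ}
    (hf : ∀ m ∈ f.support, ∑ i, m (Sum.inl i) = α ∧ ∑ i, m (Sum.inr i) = β)
    (x y : Fin (n + 1) → K) (w t : K) :
    MvPolynomial.eval (Sum.elim (fun i => w * x i) (fun i => t * y i)) f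
      = w ^ α * t ^ β * MvPolynomial.eval (Sum.elim x y) f := by
  rw [MvPolynomial.eval_eq', MvPolynomial.eval_eq', Finset.mul_sum]
  apply Finset.sum_congr rfl
  intro m hm
  obtain ⟨h1, h2⟩ := hf m hm
  rw [Fintype.prod_sum_type, Fintype.prod_sum_type]
  simp only [Sum.elim_inl, Sum.elim_inr, mul_pow, Finset.prod_mul_distrib,
    Finset.prod_pow_eq_pow_sum, h1, h2]
  ring

/-- From a geometric point outside `f = 0` find a rational Frobenius point whose fibre is not
contained in `f = 0`. -/
lemma exists_good_aux {A K L : Type} [CommRing A] [Infinite A] [Field K] [Field L] [Algebra A K]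
    [Algebra K L] [IsAlgClosed L] (hinj : Function.Injective (algebraMap A K))
    (p : ℕ) [Fact p.Prime] [CharP L p] {n : ℕ}
    (f : MvPolynomial (Fin (n + 1) ⊕ Fin (n + 1)) K)
    (x0 y0 : Fin (n + 1) → L) (hx0 : x0 ≠ 0)
    (hV : OnV n p x0 y0)
    (hf : MvPolynomial.aeval (Sum.elim x0 y0) f ≠ 0) :
    ∃ (k : Fin (n + 1)) (a : Fin (n + 1) → A) (g : MvPolynomial (Fin n) K),
      a k ≠ 0 ∧ g ≠ 0 ∧ ∀ z : Fin n → K, MvPolynomial.eval z g =
        MvPolynomial.eval (Sum.elim (fun i => (algebraMap A K (a i)) ^ p)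
          (hyp k (fun i => algebraMap A K (a i)) z)) f := by
  classical
  have hp : 0 < p := (Fact.out : p.Prime).pos
  -- p-th roots
  have hroot : ∀ i, ∃ a0 : L, a0 ^ p = x0 i := fun i => IsAlgClosed.exists_pow_nat_eq (x0 i) hp
  choose a0 ha0 using hroot
  have hsum : ∑ i, a0 i * y0 i = 0 := by
    have h1 : (∑ i, a0 i * y0 i) ^ p = 0 := by
      rw [sum_pow_char p]
      rw [OnV] at hV
      rw [← hV]
      apply Finset.sum_congr rfl
      intro i _
      rw [mul_pow, ha0]
    exact pow_eq_zero_iff (by omega) |>.mp h1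
  obtain ⟨k, hk⟩ : ∃ k, x0 k ≠ 0 := by
    by_contra hcon
    push Not at hcon
    exact hx0 (_root_.funext hcon)
  have hak : a0 k ≠ 0 := by
    intro h0
    apply hk
    rw [← ha0, h0, zero_pow (by omega)]
  obtain ⟨z0, hz0⟩ : ∃ z0 : Fin n → L, ∀ j, z0 j = y0 (k.succAbove j) / a0 k :=
    ⟨fun j => y0 (k.succAbove j) / a0 k, fun j => rfl⟩
  have hy0 : hyp k a0 z0 = y0 := by
    funext i
    rcases Fin.eq_self_or_eq_succAbove k i with rfl | ⟨j, rfl⟩
    · rw [hyp_same]
      rw [Fin.sum_univ_succAbove _ i] at hsum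
      have h2 : ∑ j, a0 (i.succAbove j) * z0 j
          = (∑ j, a0 (i.succAbove j) * y0 (i.succAbove j)) / a0 i := by
        rw [Finset.sum_div]
        apply Finset.sum_congr rfl
        intro j _
        rw [hz0, mul_div_assoc]
      rw [h2, neg_eq_iff_eq_neg, div_eq_iff hak]
      linear_combination hsum
    · rw [hyp_succAbove, hz0]
      field_simp
  obtain ⟨θ, hθ⟩ : ∃ θ : Fin (n + 1) ⊕ Fin (n + 1) → MvPolynomial (Fin (n + 1) ⊕ Fin n) K, θ =
    Sum.elim (fun i => MvPolynomial.X (Sum.inl i) ^ p)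
      (hyp k (fun i => MvPolynomial.X (Sum.inl i)) (fun j => MvPolynomial.X (Sum.inr j))) :=
    ⟨_, rfl⟩
  obtain ⟨G, hG⟩ : ∃ G : MvPolynomial (Fin (n + 1) ⊕ Fin n) K, G = MvPolynomial.bind₁ θ f :=
    ⟨_, rfl⟩
  have hGeval : ∀ {R : Type} [CommRing R] [Algebra K R] (a : Fin (n + 1) → R) (z : Fin n → R),
      MvPolynomial.aeval (Sum.elim a z) G
        = MvPolynomial.aeval (Sum.elim (fun i => a i ^ p) (hyp k a z)) f := by
    intro R _ _ a z
    rw [hG, MvPolynomial.aeval_bind₁]
    congr 1
    apply congrArg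
    funext i
    rcases i with i | i
    · simp [hθ]
    · simp only [hθ, Sum.elim_inr]
      have := map_hyp (R := MvPolynomial (Fin (n + 1) ⊕ Fin n) K) (R' := R)
        ((MvPolynomial.aeval (Sum.elim a z) : MvPolynomial (Fin (n + 1) ⊕ Fin n) K →ₐ[K] R) :
          MvPolynomial (Fin (n + 1) ⊕ Fin n) K →+* R) k (fun i => MvPolynomial.X (Sum.inl i))
        (fun j => MvPolynomial.X (Sum.inr j)) i
      simpa using this
  have hG0 : G ≠ 0 := by
    intro h0
    apply hf
    have h1 := hGeval a0 z0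
    rw [h0, map_zero, hy0] at h1
    rw [h1]
    congr 1
    apply congrArg
    congr 1
    funext i
    exact (ha0 i).symm
  have hGX : G * MvPolynomial.X (Sum.inl k) ≠ 0 :=
    mul_ne_zero hG0 (MvPolynomial.X_ne_zero _)
  obtain ⟨v, hv, hv0⟩ : ∃ v ∈ Set.pi Set.univ
      (fun _ : Fin (n + 1) ⊕ Fin n => Set.range (algebraMap A K)),
      MvPolynomial.eval v (G * MvPolynomial.X (Sum.inl k)) ≠ 0 := by
    by_contra hcon
    push Not at hcon
    apply hGX
    apply MvPolynomial.funext_set (fun _ : Fin (n + 1) ⊕ Fin n => Set.range (algebraMap A K))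
      (fun _ => Set.infinite_range_of_injective hinj)
    intro x hx
    rw [hcon x hx, map_zero]
  have hv' : ∀ i, ∃ b : A, algebraMap A K b = v i := fun i => hv i (Set.mem_univ i)
  choose b hb using hv'
  refine ⟨k, fun i => b (Sum.inl i),
    MvPolynomial.aeval (Sum.elim (fun i => MvPolynomial.C (v (Sum.inl i))) MvPolynomial.X) G,
    ?_, ?_, ?_⟩
  · intro h0
    apply hv0
    simp only at h0
    rw [map_mul, MvPolynomial.eval_X, ← hb, h0, map_zero, mul_zero]
  · intro h0
    apply hv0
    rw [map_mul]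
    have h1 : MvPolynomial.eval (fun j => v (Sum.inr j))
      (MvPolynomial.aeval (Sum.elim (fun i => MvPolynomial.C (v (Sum.inl i))) MvPolynomial.X) G)
        = MvPolynomial.eval v G := by
      rw [← MvPolynomial.coe_aeval_eq_eval, ← MvPolynomial.coe_aeval_eq_eval]
      simp only [RingHom.coe_coe]
      rw [← AlgHom.comp_apply, MvPolynomial.comp_aeval]
      congr 1
      apply congrArg
      funext i
      rcases i with i | i <;> simp
    rw [← h1, h0, map_zero, zero_mul]
  · intro z
    have h1 : MvPolynomial.eval z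
      (MvPolynomial.aeval (Sum.elim (fun i => MvPolynomial.C (v (Sum.inl i))) MvPolynomial.X) G)
        = MvPolynomial.aeval (Sum.elim (fun i => v (Sum.inl i)) z) G := by
      rw [← MvPolynomial.coe_aeval_eq_eval]
      simp only [RingHom.coe_coe]
      rw [← AlgHom.comp_apply, MvPolynomial.comp_aeval]
      congr 1
      apply congrArg
      funext i
      rcases i with i | i <;> simp
    rw [h1, hGeval, ← MvPolynomial.coe_aeval_eq_eval]
    simp only [RingHom.coe_coe, hb]

/-- The `K`-rational points of the open subset `U` of `V ⊂ P^n x P^n` where not all the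
bihomogeneous polynomials of `S` vanish. -/
def RatPts (K : Type) [Field K] (n p : ℕ) (S : Set (BiPoly K n)) : Type :=
  {P : ProjPt K n × ProjPt K n //
    OnV n p P.1.rep P.2.rep ∧ ∃ f ∈ S, ev f P.1.rep P.2.rep ≠ 0}

/-- Anticanonical height on `V`: height of the image under the embedding by `O(n, n+1-p)`. -/
noncomputable def hgt {F : Type} [Field F] {n p : ℕ} {S : Set (BiPoly (RatFunc F) n)}
    (P : RatPts (RatFunc F) n p S) : ℕ :=
  height F (segreVeronese n n (n + 1 - p) P.1.1.rep P.1.2.rep)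

/-- The term `q^{-s h(P)}` of the height zeta function, `q` the number of elements of `F`. -/
noncomputable def zetaTerm {F : Type} [Field F] {n p : ℕ} {S : Set (BiPoly (RatFunc F) n)}
    (s : ℝ) (P : RatPts (RatFunc F) n p S) : ℝ :=
  (Nat.card F : ℝ) ^ (-(s * (hgt P : ℝ)))

lemma height_bound {F : Type} [Field F] {n p : ℕ} (k : Fin (n + 1))
    (a : Fin (n + 1) → F[X]) (c : Fin n → F[X]) (x y : Fin (n + 1) → RatFunc F)
    (w t : RatFunc F) (hw : w ≠ 0) (ht : t ≠ 0)
    (hx : ∀ i, x i = w * (algebraMap F[X] (RatFunc F) (a i)) ^ p)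
    (hy : ∀ i, y i = t * hyp k (fun i => algebraMap F[X] (RatFunc F) (a i))
      (fun j => algebraMap F[X] (RatFunc F) (c j)) i) :
    height F (segreVeronese n n (n + 1 - p) x y)
      ≤ n * (p * maxDeg a) + (n + 1 - p) * (maxDeg a + maxDeg c) := by
  apply height_le (a := (w ^ n * t ^ (n + 1 - p))⁻¹)
    (c := fun m => (∏ i, (a i ^ p) ^ m.1.1 i) * ∏ i, (hyp k a c i) ^ m.1.2 i)
  · exact inv_ne_zero (mul_ne_zero (pow_ne_zero _ hw) (pow_ne_zero _ ht))
  · intro m
    obtain ⟨m, hm1, hm2⟩ := m
    simp only [segreVeronese, hx, hy, map_mul, map_prod, map_pow, map_hyp, mul_pow,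
      Finset.prod_mul_distrib, Finset.prod_pow_eq_pow_sum, hm1, hm2]
    field_simp
  · intro m
    obtain ⟨m, hm1, hm2⟩ := m
    simp only
    have hA : ∀ i, (a i).natDegree ≤ maxDeg a := fun i =>
      Finset.le_sup (f := fun i => (a i).natDegree) (Finset.mem_univ i)
    have hC : ∀ j, (c j).natDegree ≤ maxDeg c := fun j =>
      Finset.le_sup (f := fun i => (c i).natDegree) (Finset.mem_univ j)
    have hH : ∀ i, (hyp k a c i).natDegree ≤ maxDeg a + maxDeg c := by
      intro i
      rcases Fin.eq_self_or_eq_succAbove k i with rfl | ⟨j, rfl⟩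
      · rw [hyp_same, Polynomial.natDegree_neg]
        apply Polynomial.natDegree_sum_le_of_forall_le
        intro j _
        exact (Polynomial.natDegree_mul_le).trans (Nat.add_le_add (hA _) (hC _))
      · rw [hyp_succAbove]
        exact (Polynomial.natDegree_mul_le).trans (Nat.add_le_add (hA _) (hC _))
    refine (Polynomial.natDegree_mul_le).trans (Nat.add_le_add ?_ ?_)
    · refine (Polynomial.natDegree_prod_le _ _).trans ?_
      have : ∀ i ∈ Finset.univ, ((a i ^ p) ^ m.1 i).natDegree ≤ m.1 i * (p * maxDeg a) := by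
        intro i _
        refine (Polynomial.natDegree_pow_le).trans (Nat.mul_le_mul_left _ ?_)
        exact (Polynomial.natDegree_pow_le).trans (Nat.mul_le_mul_left _ (hA i))
      refine (Finset.sum_le_sum this).trans ?_
      rw [← Finset.sum_mul, hm1]
    · refine (Polynomial.natDegree_prod_le _ _).trans ?_
      have : ∀ i ∈ Finset.univ, ((hyp k a c i) ^ m.2 i).natDegree
          ≤ m.2 i * (maxDeg a + maxDeg c) := by
        intro i _
        exact (Polynomial.natDegree_pow_le).trans (Nat.mul_le_mul_left _ (hH i))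
      refine (Finset.sum_le_sum this).trans ?_
      rw [← Finset.sum_mul, hm2]

/-- The key divergence statement. -/
lemma diverges {F : Type} [Field F] [Finite F] (p : ℕ) [Fact p.Prime] [CharP F p] {n : ℕ}
    (hn : p ≤ n) (S : Set (BiPoly (RatFunc F) n))
    (f : BiPoly (RatFunc F) n) (hfS : f ∈ S)
    (hbih : IsBihomogeneous f) (x0 y0 : Fin (n + 1) → AlgebraicClosure (RatFunc F))
    (hx0 : x0 ≠ 0) (hV : OnV n p x0 y0)
    (hf : evBar f x0 y0 ≠ 0) (s : ℝ)
    (hs : s ≤ (n : ℝ) / ((n : ℝ) + 1 - p)) :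
    ¬ Summable (fun P : RatPts (RatFunc F) n p S => zetaTerm s P) := by
  classical
  intro hsum
  simp only [zetaTerm] at hsum
  have hp2 : 2 ≤ p := (Fact.out : p.Prime).two_le
  have hn2 : 2 ≤ n := hp2.trans hn
  have hq2 : 2 ≤ Nat.card F := Finite.one_lt_card
  have : CharP (RatFunc F) p := charP_of_injective_algebraMap (algebraMap F (RatFunc F)).injective p
  have : CharP (AlgebraicClosure (RatFunc F)) p :=
    charP_of_injective_algebraMap (algebraMap (RatFunc F) (AlgebraicClosure (RatFunc F))).injective p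
  have hinj : Function.Injective (algebraMap F[X] (RatFunc F)) :=
    IsFractionRing.injective F[X] (RatFunc F)
  obtain ⟨k, a, g, hak, hg0, hg⟩ := exists_good_aux (A := F[X]) (K := RatFunc F)
    (L := AlgebraicClosure (RatFunc F)) hinj p f x0 y0 hx0 hV hf
  obtain ⟨α, β, hαβ⟩ := hbih
  obtain ⟨q, hq⟩ : ∃ q : ℝ, q = (Nat.card F : ℝ) := ⟨_, rfl⟩
  have hq2' : (2 : ℝ) ≤ q := by rw [hq]; exact_mod_cast hq2
  have hq1 : (1 : ℝ) ≤ q := by linarith
  have hq0 : (0 : ℝ) < q := by linarith
  rw [← hq] at hsum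
  -- the critical exponent
  obtain ⟨s0, hs0⟩ : ∃ s0 : ℝ, s0 = (n : ℝ) / ((n : ℝ) + 1 - p) := ⟨_, rfl⟩
  rw [← hs0] at hs
  have hden : (0 : ℝ) < (n : ℝ) + 1 - p := by
    have : (p : ℝ) ≤ n := by exact_mod_cast hn
    linarith
  have hs0n : s0 * ((n : ℝ) + 1 - p) = n := by rw [hs0]; field_simp
  have hsum0 : Summable (fun P : RatPts (RatFunc F) n p S => q ^ (-(s0 * (hgt P : ℝ)))) := by
    refine Summable.of_nonneg_of_le (fun P => by positivity) (fun P => ?_) hsum
    apply Real.rpow_le_rpow_of_exponent_le hq1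
    have : (0 : ℝ) ≤ (hgt P : ℝ) := by positivity
    nlinarith
  -- the rational Frobenius point and the fibre
  set aK : Fin (n + 1) → RatFunc F := fun i => algebraMap F[X] (RatFunc F) (a i) with haK
  have hakK : aK k ≠ 0 := by
    rw [haK]
    simpa using hak
  have hx1 : (fun i => aK i ^ p) ≠ 0 := by
    intro h0
    exact hakK (pow_eq_zero_iff (by omega) |>.mp (congrFun h0 k))
  set P0 : ℙ (RatFunc F) (Fin (n + 1) → RatFunc F) := Projectivization.mk (RatFunc F) _ hx1 with hP0
  obtain ⟨w, hw⟩ := Projectivization.exists_smul_eq_mk_rep (RatFunc F) (fun i => aK i ^ p) hx1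
  have hMinj := hypLin_injective k aK hakK
  set Q : ℙ (RatFunc F) (Fin n → RatFunc F) → ℙ (RatFunc F) (Fin (n + 1) → RatFunc F) :=
    Projectivization.map (hypLin k aK) hMinj with hQ
  have hQinj : Function.Injective Q := Projectivization.map_injective _ hMinj
  have hQrep : ∀ R : ℙ (RatFunc F) (Fin n → RatFunc F), ∃ t : (RatFunc F)ˣ,
      (Q R).rep = t • hyp k aK R.rep := by
    intro R
    have hne : hypLin k aK R.rep ≠ 0 := by
      intro h0
      exact R.rep_nonzero (hMinj (by rw [h0, map_zero]))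
    have h1 : Q R = Projectivization.mk (RatFunc F) (hypLin k aK R.rep) hne := by
      conv_lhs => rw [← R.mk_rep]
      rw [hQ, Projectivization.map_mk]
    obtain ⟨t, ht⟩ := Projectivization.exists_smul_eq_mk_rep (RatFunc F) (hypLin k aK R.rep) hne
    refine ⟨t, ?_⟩
    rw [h1, ← ht]
    rfl
  choose t ht using hQrep
  -- primitive representatives
  have hprim : ∀ R : ℙ (RatFunc F) (Fin n → RatFunc F), ∃ (b : RatFunc F) (c : Fin n → F[X]),
      b ≠ 0 ∧ (∀ i, algebraMap F[X] (RatFunc F) (c i) = b * R.rep i) ∧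
      (∀ d : F[X], (∀ i, d ∣ c i) → IsUnit d) := fun R => exists_primitive R.rep R.rep_nonzero
  choose b c hb hc hcp using hprim
  -- the good vectors
  have hzne : ∀ z : {z : Fin n → F[X] // z ≠ 0 ∧
      MvPolynomial.eval (fun i => algebraMap F[X] (RatFunc F) (z i)) g ≠ 0},
      (fun i => algebraMap F[X] (RatFunc F) (z.1 i)) ≠ 0 := by
    intro z h0
    apply z.2.1
    funext i
    exact hinj (by rw [Pi.zero_apply, map_zero]; exact congrFun h0 i)
  obtain ⟨R, hR⟩ : ∃ R : {z : Fin n → F[X] // z ≠ 0 ∧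
      MvPolynomial.eval (fun i => algebraMap F[X] (RatFunc F) (z i)) g ≠ 0} →
      ℙ (RatFunc F) (Fin n → RatFunc F), ∀ z, R z = Projectivization.mk (RatFunc F) _ (hzne z) :=
    ⟨fun z => Projectivization.mk (RatFunc F) _ (hzne z), fun z => rfl⟩
  have hRrep : ∀ z, ∃ u : (RatFunc F)ˣ,
      (R z).rep = u • (fun i => algebraMap F[X] (RatFunc F) (z.1 i)) := by
    intro z
    obtain ⟨u, hu⟩ := Projectivization.exists_smul_eq_mk_rep (RatFunc F) _ (hzne z)
    exact ⟨u, by rw [hR, hu]⟩
  choose u hu using hRrep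
  have hmult : ∀ z, ∃ e : F[X], ∀ i, z.1 i = e * c (R z) i := by
    intro z
    apply multiple_of_primitive (c (R z)) z.1 (hcp (R z)) ((u z : RatFunc F)⁻¹ * (b (R z))⁻¹)
    intro i
    rw [hc (R z) i, hu z]
    have h1 := hb (R z)
    have h2 : (u z : RatFunc F) ≠ 0 := (u z).ne_zero
    simp only [Pi.smul_apply, Units.smul_def, smul_eq_mul]
    field_simp
  choose e he using hmult
  have he0 : ∀ z, e z ≠ 0 := by
    intro z h0
    apply z.2.1
    funext i
    rw [he z i, h0, zero_mul]
    rfl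
  -- membership in U
  have hmem : ∀ z, OnV n p P0.rep (Q (R z)).rep ∧
      ∃ f ∈ S, ev f P0.rep (Q (R z)).rep ≠ 0 := by
    intro z
    have h1 : P0.rep = fun i => (w : RatFunc F) * aK i ^ p := by
      rw [hP0, ← hw]
      rfl
    have h2 : (Q (R z)).rep = fun i => ((t (R z) : RatFunc F) * (u z : RatFunc F)) *
        hyp k aK (fun i => algebraMap F[X] (RatFunc F) (z.1 i)) i := by
      rw [ht (R z), hu z]
      funext i
      have h3 := congrFun ((hypLin k aK).map_smul (u z : RatFunc F)
        (fun i => algebraMap F[X] (RatFunc F) (z.1 i))) i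
      simp only [hypLin, LinearMap.coe_mk, AddHom.coe_mk, Pi.smul_apply, smul_eq_mul] at h3
      simp only [Pi.smul_apply, Units.smul_def, smul_eq_mul]
      rw [mul_assoc, ← h3]
    constructor
    · rw [OnV, h1, h2]
      have h4 : ∀ i, (w : RatFunc F) * aK i ^ p * (((t (R z) : RatFunc F) * (u z : RatFunc F)) *
          hyp k aK (fun i => algebraMap F[X] (RatFunc F) (z.1 i)) i) ^ p
          = ((w : RatFunc F) * ((t (R z) : RatFunc F) * (u z : RatFunc F)) ^ p) *
            (aK i * hyp k aK (fun i => algebraMap F[X] (RatFunc F) (z.1 i)) i) ^ p := by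
        intro i
        rw [mul_pow, mul_pow (aK i)]
        ring
      simp only [h4]
      rw [← Finset.mul_sum, ← sum_pow_char p, sum_hyp, zero_pow (by omega), mul_zero]
    · refine ⟨f, hfS, ?_⟩
      rw [ev, h1, h2, bihom_eval hαβ]
      refine mul_ne_zero (mul_ne_zero (pow_ne_zero _ w.ne_zero)
        (pow_ne_zero _ (mul_ne_zero (t (R z)).ne_zero (u z).ne_zero))) ?_
      rw [← hg]
      exact z.2.2
  -- the injection
  obtain ⟨Φ, hΦ⟩ : ∃ Φ : {z : Fin n → F[X] // z ≠ 0 ∧
      MvPolynomial.eval (fun i => algebraMap F[X] (RatFunc F) (z i)) g ≠ 0} →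
      RatPts (RatFunc F) n p S × {e : F[X] // e ≠ 0}, ∀ z, Φ z = (⟨(P0, Q (R z)), hmem z⟩, ⟨e z, he0 z⟩) :=
    ⟨_, fun z => rfl⟩
  have hΦinj : Function.Injective Φ := by
    intro z z' h
    rw [hΦ, hΦ] at h
    have h1 := congrArg (fun v => v.1.1.2) h
    have h2 := congrArg (fun v => v.2.1) h
    simp only at h1 h2
    have h3 := hQinj h1
    apply Subtype.ext
    funext i
    rw [he z i, he z' i, h2, h3]
  have hprod := (Summable.mul_of_nonneg hsum0 (hq ▸ summable_scalars F hn2)
    (fun P => by positivity) (fun g => by positivity)).comp_injective hΦinj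
  apply not_summable_vectors hn2 g hg0
  rw [← hq]
  refine Summable.of_nonneg_of_le (fun z => by positivity) (fun z => ?_)
    (hprod.mul_left (q ^ (s0 * (n * (p * maxDeg a) : ℕ) + (n : ℝ) * maxDeg a)))
  rw [Function.comp_apply, hΦ]
  simp only
  -- degrees
  have hdeg : (e z).natDegree + maxDeg (c (R z)) ≤ maxDeg z.1 := by
    obtain ⟨i0, hi0⟩ : ∃ i, c (R z) i ≠ 0 := by
      by_contra hcon
      push Not at hcon
      apply z.2.1
      funext i
      rw [he z i, hcon i, mul_zero]
      rfl
    obtain ⟨i, hi, hi'⟩ : ∃ i, c (R z) i ≠ 0 ∧ (c (R z) i).natDegree = maxDeg (c (R z)) := by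
      obtain ⟨i, _, hi⟩ := Finset.exists_mem_eq_sup (Finset.univ : Finset (Fin n))
        ⟨i0, Finset.mem_univ _⟩ (fun i => (c (R z) i).natDegree)
      by_cases h0 : c (R z) i = 0
      · refine ⟨i0, hi0, ?_⟩
        rw [h0, Polynomial.natDegree_zero] at hi
        have h1 : (c (R z) i0).natDegree ≤ maxDeg (c (R z)) :=
          Finset.le_sup (f := fun i => (c (R z) i).natDegree) (Finset.mem_univ i0)
        have h2 : maxDeg (c (R z)) = 0 := hi
        omega
      · exact ⟨i, h0, hi.symm⟩
    have h1 : (z.1 i).natDegree ≤ maxDeg z.1 :=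
      Finset.le_sup (f := fun i => (z.1 i).natDegree) (Finset.mem_univ i)
    rw [he z i, Polynomial.natDegree_mul (he0 z) hi, hi'] at h1
    exact h1
  have hh : (hgt (⟨(P0, Q (R z)), hmem z⟩ : RatPts (RatFunc F) n p S) : ℝ)
      ≤ ((n * (p * maxDeg a) : ℕ) : ℝ) + ((n : ℝ) + 1 - p) * ((maxDeg a : ℝ) + maxDeg (c (R z))) := by
    have h1 := height_bound (p := p) k a (c (R z)) P0.rep (Q (R z)).rep (w : RatFunc F)
      ((t (R z) : RatFunc F) * (b (R z))⁻¹) w.ne_zero
      (mul_ne_zero (t (R z)).ne_zero (inv_ne_zero (hb (R z))))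
      (by
        intro i
        rw [hP0, ← hw]
        rfl)
      (by
        intro i
        rw [ht (R z)]
        have h3 := congrFun ((hypLin k aK).map_smul (b (R z)) ((R z).rep)) i
        simp only [hypLin, LinearMap.coe_mk, AddHom.coe_mk, Pi.smul_apply, smul_eq_mul] at h3
        have h4 : (fun j => algebraMap F[X] (RatFunc F) (c (R z) j)) = b (R z) • (R z).rep := by
          funext j
          rw [hc (R z) j]
          rfl
        simp only [Pi.smul_apply, Units.smul_def, smul_eq_mul]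
        rw [h4]
        have h5 : hyp k (fun i => algebraMap F[X] (RatFunc F) (a i)) (b (R z) • (R z).rep) i
          = b (R z) * hyp k aK (R z).rep i := h3
        rw [h5]
        have := hb (R z)
        field_simp)
    have h2 : ((n * (p * maxDeg a) + (n + 1 - p) * (maxDeg a + maxDeg (c (R z))) : ℕ) : ℝ)
        = ((n * (p * maxDeg a) : ℕ) : ℝ) + ((n : ℝ) + 1 - p) * ((maxDeg a : ℝ) + maxDeg (c (R z))) := by
      rw [Nat.cast_add, Nat.cast_mul (n + 1 - p), Nat.cast_sub (by omega)]
      push_cast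
      ring
    rw [← h2]
    exact_mod_cast h1
  have hs0pos : 0 ≤ s0 := by rw [hs0]; positivity
  rw [← Real.rpow_natCast, ← Real.rpow_natCast, ← Real.rpow_neg hq0.le, ← Real.rpow_neg hq0.le,
    ← Real.rpow_add hq0, ← Real.rpow_add hq0]
  apply Real.rpow_le_rpow_of_exponent_le hq1
  have h1 := mul_le_mul_of_nonneg_left hh hs0pos
  have h2 : s0 * (((n * (p * maxDeg a) : ℕ) : ℝ) +
      ((n : ℝ) + 1 - p) * ((maxDeg a : ℝ) + maxDeg (c (R z))))
      = s0 * ((n * (p * maxDeg a) : ℕ) : ℝ) + (n : ℝ) * maxDeg a + (n : ℝ) * maxDeg (c (R z)) := by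
    rw [mul_add, ← mul_assoc s0 ((n : ℝ) + 1 - p), hs0n]
    ring
  rw [h2] at h1
  have h3 : (n : ℝ) * ((e z).natDegree + maxDeg (c (R z))) ≤ (n : ℝ) * maxDeg z.1 := by
    apply mul_le_mul_of_nonneg_left _ (by positivity)
    exact_mod_cast hdeg
  rw [Nat.cast_mul n (maxDeg z.1), Nat.cast_mul n (e z).natDegree]
  linarith

/-- `V` as the zero locus of one polynomial, bihomogeneous of bidegree `(1, p)`:
the polynomial `∑ x_i y_i ^ p`. -/
noncomputable def equation (K : Type) [Field K] (n p : ℕ) : BiPoly K n :=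
  ∑ i, MvPolynomial.X (Sum.inl i) * MvPolynomial.X (Sum.inr i) ^ p

/-- Points of `V` with homogeneous coordinates in the field `L`. -/
def PtOfV (L : Type) [Field L] (n p : ℕ) (x y : Fin (n + 1) → L) : Prop :=
  x ≠ 0 ∧ y ≠ 0 ∧ ev (equation L n p) x y = 0

/-- Jacobian criterion: the gradient of the equation vanishes at no point of `V` over `L`. -/
def IsSmoothV (L : Type) [Field L] (n p : ℕ) : Prop :=
  ∀ x y : Fin (n + 1) → L, PtOfV L n p x y →
    ∃ v, ev (MvPolynomial.pderiv v (equation L n p)) x y ≠ 0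

/-- Irreducibility of `V` over `L`: two nonempty open subsets of `V` (complements of the zero
loci of `f` and of `g`) always meet. -/
def IsIrreducibleV (L : Type) [Field L] (n p : ℕ) : Prop :=
  ∀ f g : BiPoly L n, (∃ x y, PtOfV L n p x y ∧ ev f x y ≠ 0) →
    (∃ x y, PtOfV L n p x y ∧ ev g x y ≠ 0) →
    ∃ x y, PtOfV L n p x y ∧ ev f x y ≠ 0 ∧ ev g x y ≠ 0

/-- The open subset of `V` where not all polynomials of the set `S` vanish is given by
bihomogeneous polynomials over `K` and contains a geometric point, hence is dense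
(`V` being irreducible). -/
def IsDenseOpen (K : Type) [Field K] (n p : ℕ) (S : Set (BiPoly K n)) : Prop :=
  (∀ f ∈ S, IsBihomogeneous f) ∧
    ∃ x y, PtOfV (AlgebraicClosure K) n p x y ∧ ∃ f ∈ S, evBar f x y ≠ 0

/-- The abscissa of convergence of the height zeta function `∑_{P ∈ U(K)} q^{-s h(P)}`,
as an extended real number. -/
noncomputable def abscissa (F : Type) [Field F] (n p : ℕ) (S : Set (BiPoly (RatFunc F) n)) :
    EReal :=
  sInf {σ : EReal | ∃ s : ℝ, σ = (s : EReal) ∧
    Summable (fun P : RatPts (RatFunc F) n p S => zetaTerm s P)}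

lemma ptOfV_iff {L : Type} [Field L] {n p : ℕ} {x y : Fin (n + 1) → L} :
    PtOfV L n p x y ↔ x ≠ 0 ∧ y ≠ 0 ∧ OnV n p x y := by
  simp [PtOfV, OnV, equation, ev, map_sum]

lemma smooth {L : Type} [Field L] {n p : ℕ} : IsSmoothV L n p := by
  classical
  intro x y h
  obtain ⟨hx, hy, hV⟩ := h
  obtain ⟨k, hk⟩ : ∃ k, y k ≠ 0 := by
    by_contra hcon
    push Not at hcon
    exact hy (_root_.funext hcon)
  refine ⟨Sum.inl k, ?_⟩
  have h1 : MvPolynomial.pderiv (Sum.inl k) (equation L n p) = MvPolynomial.X (Sum.inr k) ^ p := by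
    rw [equation, map_sum, Finset.sum_eq_single k]
    · simp [MvPolynomial.pderiv_X, Derivation.leibniz, Derivation.leibniz_pow]
    · intro i _ hi
      simp [MvPolynomial.pderiv_X, Derivation.leibniz, Derivation.leibniz_pow, hi]
    · intro h
      exact absurd (Finset.mem_univ k) h
  rw [ev, h1, map_pow, MvPolynomial.eval_X]
  exact pow_ne_zero _ hk

/-- the rational parametrisation of the part `y_k ≠ 0` of `V` -/
def par {R : Type} [CommRing R] {n : ℕ} (p : ℕ) (k : Fin (n + 1)) (w : Fin n → R)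
    (y : Fin (n + 1) → R) : Fin (n + 1) → R :=
  k.insertNth (-(∑ j, w j * y (k.succAbove j) ^ p)) (fun j => y k ^ p * w j)

lemma par_same {R : Type} [CommRing R] {n : ℕ} (p : ℕ) (k : Fin (n + 1)) (w : Fin n → R)
    (y : Fin (n + 1) → R) : par p k w y k = -(∑ j, w j * y (k.succAbove j) ^ p) := by
  simp [par]

lemma par_succAbove {R : Type} [CommRing R] {n : ℕ} (p : ℕ) (k : Fin (n + 1)) (w : Fin n → R)
    (y : Fin (n + 1) → R) (j : Fin n) : par p k w y (k.succAbove j) = y k ^ p * w j := by
  simp [par]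

lemma map_par {R R' : Type} [CommRing R] [CommRing R'] (φ : R →+* R') {n : ℕ} (p : ℕ)
    (k : Fin (n + 1)) (w : Fin n → R) (y : Fin (n + 1) → R) (i : Fin (n + 1)) :
    φ (par p k w y i) = par p k (fun j => φ (w j)) (fun i => φ (y i)) i := by
  rcases Fin.eq_self_or_eq_succAbove k i with rfl | ⟨j, rfl⟩
  · simp [par_same]
  · simp [par_succAbove]

lemma onV_par {L : Type} [Field L] {n : ℕ} (p : ℕ) (k : Fin (n + 1)) (w : Fin n → L)
    (y : Fin (n + 1) → L) : OnV n p (par p k w y) y := by
  rw [OnV, Fin.sum_univ_succAbove _ k]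
  simp only [par_same, par_succAbove]
  rw [neg_mul, Finset.sum_mul, neg_add_eq_zero]
  apply Finset.sum_congr rfl
  intro j _
  ring

lemma par_surj {L : Type} [Field L] {n : ℕ} (p : ℕ) (k : Fin (n + 1)) (x y : Fin (n + 1) → L)
    (hV : OnV n p x y) (hk : y k ≠ 0) : ∃ w, par p k w y = x := by
  refine ⟨fun j => x (k.succAbove j) / y k ^ p, ?_⟩
  have hkp : y k ^ p ≠ 0 := pow_ne_zero _ hk
  funext i
  rcases Fin.eq_self_or_eq_succAbove k i with rfl | ⟨j, rfl⟩
  · rw [par_same]
    rw [OnV, Fin.sum_univ_succAbove _ i] at hV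
    have h2 : ∑ j, x (i.succAbove j) / y i ^ p * y (i.succAbove j) ^ p
        = (∑ j, x (i.succAbove j) * y (i.succAbove j) ^ p) / y i ^ p := by
      rw [Finset.sum_div]
      apply Finset.sum_congr rfl
      intro j _
      ring
    rw [h2, neg_eq_iff_eq_neg, div_eq_iff hkp]
    linear_combination hV
  · rw [par_succAbove]
    field_simp

/-- pull back along the parametrisation -/
noncomputable def pull {L : Type} [Field L] {n : ℕ} (p : ℕ) (k : Fin (n + 1))
    (f : MvPolynomial (Fin (n + 1) ⊕ Fin (n + 1)) L) : MvPolynomial (Fin n ⊕ Fin (n + 1)) L :=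
  MvPolynomial.bind₁ (Sum.elim
    (par p k (fun j => MvPolynomial.X (Sum.inl j)) (fun i => MvPolynomial.X (Sum.inr i)))
    (fun i => MvPolynomial.X (Sum.inr i))) f

lemma eval_pull {L : Type} [Field L] {n : ℕ} (p : ℕ) (k : Fin (n + 1))
    (f : MvPolynomial (Fin (n + 1) ⊕ Fin (n + 1)) L) (w : Fin n → L) (y : Fin (n + 1) → L) :
    MvPolynomial.eval (Sum.elim w y) (pull p k f)
      = MvPolynomial.eval (Sum.elim (par p k w y) y) f := by
  rw [pull, ← MvPolynomial.coe_aeval_eq_eval, ← MvPolynomial.coe_aeval_eq_eval]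
  simp only [RingHom.coe_coe]
  rw [MvPolynomial.aeval_bind₁]
  congr 1
  apply congrArg
  funext i
  rcases i with i | i
  · simp only [Sum.elim_inl]
    have := map_par (R := MvPolynomial (Fin n ⊕ Fin (n + 1)) L) (R' := L)
      ((MvPolynomial.aeval (Sum.elim w y) : MvPolynomial (Fin n ⊕ Fin (n + 1)) L →ₐ[L] L) :
        MvPolynomial (Fin n ⊕ Fin (n + 1)) L →+* L) p k (fun i => MvPolynomial.X (Sum.inl i))
      (fun j => MvPolynomial.X (Sum.inr j)) i
    simpa using this
  · simp

lemma irreducible_aux {L : Type} [Field L] [Infinite L] {n : ℕ} (hn : 1 ≤ n) (p : ℕ)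
    (f g : MvPolynomial (Fin (n + 1) ⊕ Fin (n + 1)) L)
    (hf : ∃ x y, (x ≠ 0 ∧ y ≠ 0 ∧ OnV n p x y) ∧ MvPolynomial.eval (Sum.elim x y) f ≠ 0)
    (hg : ∃ x y, (x ≠ 0 ∧ y ≠ 0 ∧ OnV n p x y) ∧ MvPolynomial.eval (Sum.elim x y) g ≠ 0) :
    ∃ x y, (x ≠ 0 ∧ y ≠ 0 ∧ OnV n p x y) ∧ MvPolynomial.eval (Sum.elim x y) f ≠ 0 ∧
      MvPolynomial.eval (Sum.elim x y) g ≠ 0 := by
  have key : ∀ (h : MvPolynomial (Fin (n + 1) ⊕ Fin (n + 1)) L),
      (∃ x y, (x ≠ 0 ∧ y ≠ 0 ∧ OnV n p x y) ∧ MvPolynomial.eval (Sum.elim x y) h ≠ 0) →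
      ∀ k, pull p k h ≠ 0 := by
    intro h ⟨x, y, ⟨hx, hy, hV⟩, hne⟩ k
    obtain ⟨k', hk'⟩ : ∃ k', y k' ≠ 0 := by
      by_contra hcon
      push Not at hcon
      exact hy (_root_.funext hcon)
    obtain ⟨w, hw⟩ := par_surj p k' x y hV hk'
    have h1 : pull p k' h ≠ 0 := by
      intro h0
      apply hne
      rw [← hw, ← eval_pull, h0, map_zero]
    have h2 : pull p k' h * MvPolynomial.X (Sum.inr k) ≠ 0 :=
      mul_ne_zero h1 (MvPolynomial.X_ne_zero _)
    obtain ⟨v, hv⟩ : ∃ v, MvPolynomial.eval v (pull p k' h * MvPolynomial.X (Sum.inr k)) ≠ 0 := by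
      by_contra hcon
      push Not at hcon
      exact h2 (MvPolynomial.funext (fun x => by rw [hcon x, map_zero]))
    rw [map_mul, MvPolynomial.eval_X] at hv
    have hv1 := left_ne_zero_of_mul hv
    have hv2 := right_ne_zero_of_mul hv
    have hvs : v = Sum.elim (fun j => v (Sum.inl j)) (fun i => v (Sum.inr i)) := by
      funext i
      rcases i with i | i <;> rfl
    rw [hvs, eval_pull] at hv1
    obtain ⟨w', hw'⟩ := par_surj p k (par p k' (fun j => v (Sum.inl j)) (fun i => v (Sum.inr i)))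
      (fun i => v (Sum.inr i)) (onV_par p k' _ _) hv2
    intro h0
    apply hv1
    rw [← hw', ← eval_pull, h0, map_zero]
  have hF := key f hf 0
  have hG := key g hg 0
  have j0 : Fin n := ⟨0, by omega⟩
  have hprod : pull p 0 f * pull p 0 g * MvPolynomial.X (Sum.inl j0) *
      MvPolynomial.X (Sum.inr 0) ≠ 0 :=
    mul_ne_zero (mul_ne_zero (mul_ne_zero hF hG) (MvPolynomial.X_ne_zero _))
      (MvPolynomial.X_ne_zero _)
  obtain ⟨v, hv⟩ : ∃ v, MvPolynomial.eval v (pull p 0 f * pull p 0 g *
      MvPolynomial.X (Sum.inl j0) * MvPolynomial.X (Sum.inr 0)) ≠ 0 := by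
    by_contra hcon
    push Not at hcon
    exact hprod (MvPolynomial.funext (fun x => by rw [hcon x, map_zero]))
  rw [map_mul, map_mul, map_mul, MvPolynomial.eval_X, MvPolynomial.eval_X] at hv
  have hv4 := right_ne_zero_of_mul hv
  have hv3 := right_ne_zero_of_mul (left_ne_zero_of_mul hv)
  have hv2 := right_ne_zero_of_mul (left_ne_zero_of_mul (left_ne_zero_of_mul hv))
  have hv1 := left_ne_zero_of_mul (left_ne_zero_of_mul (left_ne_zero_of_mul hv))
  have hvs : v = Sum.elim (fun j => v (Sum.inl j)) (fun i => v (Sum.inr i)) := by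
    funext i
    rcases i with i | i <;> rfl
  rw [hvs, eval_pull] at hv1 hv2
  refine ⟨_, _, ⟨?_, ?_, onV_par p 0 _ _⟩, hv1, hv2⟩
  · intro h0
    have := congrFun h0 ((0 : Fin (n + 1)).succAbove j0)
    rw [par_succAbove] at this
    exact mul_ne_zero (pow_ne_zero _ hv4) hv3 this
  · intro h0
    exact hv4 (congrFun h0 0)

/-- **Main result.**  Let `F` be a finite field of characteristic `p` with `q` elements,
`K = F(t)` and `n ≥ p`.  The hypersurface `V : ∑ x_i y_i ^ p = 0` of bidegree `(1, p)` in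
`P^n x P^n` is smooth and geometrically irreducible, every dense open `U ⊆ V` has infinitely
many `K`-points, and the height zeta function of every dense open `U ⊆ V` for the height given
by the embedding by `O(n, n + 1 - p)`, the anticanonical sheaf of `V`, has abscissa of
convergence at least `n / (n + 1 - p) > 1`. -/
theorem result (F : Type) [Field F] [Finite F] (p n : ℕ) [Fact p.Prime] [CharP F p]
    (hn : p ≤ n) :
    IsSmoothV (AlgebraicClosure (RatFunc F)) n p ∧
    IsIrreducibleV (AlgebraicClosure (RatFunc F)) n p ∧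
    (∀ S, IsDenseOpen (RatFunc F) n p S → Infinite (RatPts (RatFunc F) n p S)) ∧
    1 < (n : ℝ) / ((n : ℝ) + 1 - p) ∧
    ∀ S, IsDenseOpen (RatFunc F) n p S →
      (((n : ℝ) / ((n : ℝ) + 1 - p) : ℝ) : EReal) ≤ abscissa F n p S ∧
      abscissa F n p S ≠ 1 := by
  have hp2 : 2 ≤ p := (Fact.out : p.Prime).two_le
  have hdiv : ∀ S, IsDenseOpen (RatFunc F) n p S → ∀ s : ℝ,
      s ≤ (n : ℝ) / ((n : ℝ) + 1 - p) →
      ¬ Summable (fun P : RatPts (RatFunc F) n p S => zetaTerm s P) := by
    intro S hS s hs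
    obtain ⟨hbih, x, y, hxy, f, hfS, hf⟩ := hS
    rw [ptOfV_iff] at hxy
    exact diverges p hn S f hfS (hbih f hfS) x y hxy.1 hxy.2.2 hf s hs
  have hgt1 : 1 < (n : ℝ) / ((n : ℝ) + 1 - p) := by
    have : (p : ℝ) ≤ n := by exact_mod_cast hn
    have h2 : (2 : ℝ) ≤ p := by exact_mod_cast hp2
    rw [lt_div_iff₀ (by linarith)]
    linarith
  refine ⟨smooth, ?_, ?_, hgt1, ?_⟩
  · intro f g hf hg
    simp only [ptOfV_iff] at hf hg ⊢
    exact irreducible_aux (by omega) p f g hf hg
  · intro S hS
    by_contra hcon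
    rw [not_infinite_iff_finite] at hcon
    exact hdiv S hS _ le_rfl (Summable.of_finite)
  · intro S hS
    have hle : (((n : ℝ) / ((n : ℝ) + 1 - p) : ℝ) : EReal) ≤ abscissa F n p S := by
      apply le_sInf
      rintro σ ⟨s, rfl, hs⟩
      rw [EReal.coe_le_coe_iff]
      by_contra hcon
      push Not at hcon
      exact hdiv S hS s hcon.le hs
    refine ⟨hle, fun h1 => ?_⟩
    rw [h1] at hle
    have h2 : ((1 : ℝ) : EReal) < (((n : ℝ) / ((n : ℝ) + 1 - p) : ℝ) : EReal) :=
      EReal.coe_lt_coe_iff.mpr hgt1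
    rw [EReal.coe_one] at h2
    exact absurd hle (not_le.mpr h2)

end Pool.Agent.Results.MP_7b039f_nt.FrobeniusIncidence
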